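import Pool.Agent.TH399.HP.Main

/-!
# `1/2`-flow-pairs of graphs that get a nowhere-zero 4-flow by adding an edge (MP_e59a69_co)

Let `G` be a bridgeless multigraph and `x ≠ y` vertices such that `G + xy` has a nowhere-zero 4-flow
(for example: `G` has a Hamiltonian path, or any spanning trail, from `x` to `y`). If every 3-edge-cut
of `G` which separates `x` from `y` is the set of edges at `x` or the set of edges at `y`, then `G` has
a `1/2`-flow-pair. There is no other condition on degrees or connectivity.

Proof. Let `f` be a nowhere-zero `ℤ₂ × ℤ₂`-flow of `G + xy` and `t` its value on the new edge. The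
edges of `G` with value different from `t` form an even set `F`, and an Eulerian orientation of a set
of edges of `G + xy` which contains all edges of value `t` gives a function on `G` with values
`±1` off `F` and boundary `±1` at `x` and `y` only. By Hoffman's theorem `F` is the support of `φ₂` in a
`1/2`-flow-pair unless a 3-edge-cut separating `x` from `y` has the value `t` on all its edges. If this
happens at a vertex `x` of degree three, then `f` is switched along a circuit through `x` (a Kempe
change), with the colour chosen such that nothing happens at `y`.
-/

set_option autoImplicit false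

namespace Pool.Agent.TH399.Out.AddedEdge

open Pool.Agent.H160R2.HF

/-- The multigraph `G` with a new edge `none` from `x` to `y`. -/
def addEdge {V E : Type} (G : OrGraph V E) (x y : V) : OrGraph V (Option E) where
  t := fun g => g.elim x G.t
  h := fun g => g.elim y G.h

/-- **Theorem.** Let `G` be a finite bridgeless multigraph and `x ≠ y` vertices such that `G + xy` has a
nowhere-zero 4-flow. If every 3-edge-cut of `G` that separates `x` from `y` is the cut `δ(x)` or the cut
`δ(y)`, then `G` has a `1/2`-flow-pair. -/
theorem result : ∀ (V E : Type) [Fintype V] [Fintype E] [DecidableEq V] [DecidableEq E]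
    (G : OrGraph V E), G.Bridgeless → ∀ x y : V, x ≠ y →
    (∃ ψ : Option E → ℤ, (addEdge G x y).IsKFlow 4 ψ ∧ ∀ g, ψ g ≠ 0) →
    (∀ X : Finset V, x ∈ X → y ∉ X → (G.cut X).card = 3 →
      G.cut X = G.cut {x} ∨ G.cut X = G.cut {y}) →
      ∃ φ₂ φ₄ : E → ℤ, G.IsHalfFlowPair φ₂ φ₄ := by
  intro V E _ _ _ _ G hB x y hxy hflow hcut
  exact Pool.Agent.TH399.HP.main G hB x y hxy hflow hcut

end Pool.Agent.TH399.Out.AddedEdge
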