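import Pool.Agent.TH399.HP2.Core

/-!
# `1/2`-flow-pairs of graphs having a 4-flow with additional edges of even value (MP_e59a69_co)

Let `G` be a finite multigraph and `T` a finite set of new edges between vertices of `G`, and let
`ψ` be a 4-flow of `G + T` which is nonzero on all edges of `G` and even on all edges of `T`. For a
vertex set `X` let `d` be the number of edges of `G` leaving `X`, `s` the number of those with odd
value, and `q` the number of edges of `T` leaving `X`. If `s ≥ 2 q` or `5 s ≥ 2 d` or `d ≥ 5 q - 1`
for every `X`, then `G` has a `1/2`-flow-pair `(φ₂, φ₄)` with `φ₂ ≠ 0` exactly on the edges of odd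
value. There is no condition on the degrees.

Proof. The edges of odd value form an even set `F` of `G`. Write `ψ = κ₀ + 2 θ`, where `κ₀` is an
Eulerian orientation of `F`; the edges where `θ` is odd form an even set of `G + T`, which contains
all edges of `G` outside `F`. An Eulerian orientation `κ` of this set is `±1` outside `F` and its
net flow out of `X`, counted over the edges of `G` outside `F` only, is at most `s + q`. By Hoffman's
theorem (starting files) there is a 4-flow with values `2, 3` in the direction of `κ` outside `F`.
-/

set_option autoImplicit false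

namespace Pool.Agent.TH399.Out.AddedEvenEdges

open Pool.Agent.H160R2.HF

/-- The multigraph `G` with new edges: the new edge `i : T` goes from `a i` to `b i`. -/
def addEdges {V E T : Type} (G : OrGraph V E) (a b : T → V) : OrGraph V (E ⊕ T) where
  t := fun g => Sum.elim G.t a g
  h := fun g => Sum.elim G.h b g

/-- The number of new edges with exactly one end in `X`. -/
def newCut {V T : Type} [Fintype T] [DecidableEq V] (a b : T → V) (X : Finset V) : ℕ :=
  (Finset.univ.filter (fun i => ¬ (a i ∈ X ↔ b i ∈ X))).card

/-- The number of edges of odd value with exactly one end in `X`. -/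
def oddCut {V E : Type} [Fintype V] [Fintype E] [DecidableEq V] [DecidableEq E] (G : OrGraph V E)
    (ψ : E → ℤ) (X : Finset V) : ℕ :=
  ((G.cut X).filter (fun e => Odd (ψ e))).card

/-- **Theorem.** Let `ψ` be a 4-flow of `G + T` which is nonzero on `G` and even on the new edges.
If every vertex set `X` with `s < 2 q` and `5 s < 2 d` satisfies `5 q ≤ d + 1`, where `d`, `s`, `q`
are the numbers of edges of `G`, edges of `G` with odd value and new edges leaving `X`, then `G` has a
`1/2`-flow-pair whose 2-flow is nonzero exactly on the edges of odd value. -/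
theorem result : ∀ (V E T : Type) [Fintype V] [Fintype E] [Fintype T] [DecidableEq V]
    [DecidableEq E] (G : OrGraph V E) (a b : T → V) (ψ : E ⊕ T → ℤ),
    (addEdges G a b).IsKFlow 4 ψ → (∀ e : E, ψ (Sum.inl e) ≠ 0) →
    (∀ i : T, Even (ψ (Sum.inr i))) →
    (∀ X : Finset V, oddCut G (fun e => ψ (Sum.inl e)) X < 2 * newCut a b X →
      5 * oddCut G (fun e => ψ (Sum.inl e)) X < 2 * (G.cut X).card →
        5 * newCut a b X ≤ (G.cut X).card + 1) →
      ∃ φ₂ φ₄ : E → ℤ, G.IsHalfFlowPair φ₂ φ₄ ∧ ∀ e, φ₂ e ≠ 0 ↔ Odd (ψ (Sum.inl e)) := by
  intro V E T _ _ _ _ _ G a b ψ h1 h2 h3 h4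
  classical
  exact Pool.Agent.TH399.HP2.main G a b ψ h1 h2 h3 h4

end Pool.Agent.TH399.Out.AddedEvenEdges
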